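import Pool.Agent.TH109.CG4.Inv

/-!
Second order rigidity for an invariant inner product: reduction to sequences of perturbations.
-/

open scoped ContDiff Matrix.Norms.Frobenius Topology
open Matrix Filter Pool.Agent.H842R4 Pool.Agent.TH109.CG

noncomputable section

namespace Pool.Agent.TH109.CG4

variable {N : ℕ} {G : CGroup N} (Q : InvProduct G)

/-- component of `g - Q`, divided by `t`, as a smooth function -/
def hFun (g : Metric G) (t : ℝ) (A B : lieAlg G) : smoothAlg G :=
  t⁻¹ • ((⟨fun p => g.val p A B, g.smooth A B⟩ : smoothAlg G) - algebraMap ℝ _ (Q.val A B))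

theorem hFun_apply (g : Metric G) (t : ℝ) (A B : lieAlg G) (p : Pt G) :
    (hFun Q g t A B : Pt G → ℝ) p = t⁻¹ * (g.val p A B - Q.val A B) := rfl

/-- `(g - Q)/t` as a bilinear map -/
def hMap0 (g : Metric G) (t : ℝ) : lieAlg G →ₗ[ℝ] lieAlg G →ₗ[ℝ] smoothAlg G :=
  LinearMap.mk₂ ℝ (hFun Q g t)
    (fun A B C => by
      apply Subtype.ext; funext p
      show _ = (hFun Q g t A C : Pt G → ℝ) p + (hFun Q g t B C : Pt G → ℝ) p
      simp only [hFun_apply, map_add, LinearMap.add_apply]
      ring)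
    (fun c A B => by
      apply Subtype.ext; funext p
      show _ = c * (hFun Q g t A B : Pt G → ℝ) p
      simp only [hFun_apply, map_smul, LinearMap.smul_apply, smul_eq_mul]
      ring)
    (fun A B C => by
      apply Subtype.ext; funext p
      show _ = (hFun Q g t A B : Pt G → ℝ) p + (hFun Q g t A C : Pt G → ℝ) p
      simp only [hFun_apply, map_add]
      ring)
    (fun c A B => by
      apply Subtype.ext; funext p
      show _ = c * (hFun Q g t A B : Pt G → ℝ) p
      simp only [hFun_apply, map_smul, smul_eq_mul]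
      ring)

/-- `(g - Q)/t` as a bilinear map -/
def hMap (g : Metric G) (t : ℝ) : LQ Q →ₗ[ℝ] LQ Q →ₗ[ℝ] smoothAlg G := hMap0 Q g t

theorem met_coe (g : Metric G) (t : ℝ) (ht : t ≠ 0) (A B : LQ Q) :
    (((qCalc Q).met t (hMap Q g t) A B : smoothAlg G) : Pt G → ℝ) = fun p => g.val p A B := by
  funext p
  show (Q.val A B : ℝ) + t * (t⁻¹ * (g.val p A B - Q.val A B)) = _
  field_simp
  ring

theorem eta_coe (g : Metric G) (t : ℝ) (ht : t ≠ 0) (A B C : LQ Q) :
    (((qCalc Q).eta ((qCalc Q).met t (hMap Q g t)) A B C : smoothAlg G) : Pt G → ℝ) =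
      g.koszul A B C := by
  funext p
  have h1 : (((qCalc Q).eta ((qCalc Q).met t (hMap Q g t)) A B C : smoothAlg G) : Pt G → ℝ) p =
      (1 / 2 : ℝ) * (lie A (((qCalc Q).met t (hMap Q g t) B C : smoothAlg G) : Pt G → ℝ) p
        + lie B (((qCalc Q).met t (hMap Q g t) A C : smoothAlg G) : Pt G → ℝ) p
        - lie C (((qCalc Q).met t (hMap Q g t) A B : smoothAlg G) : Pt G → ℝ) p
        + (((qCalc Q).met t (hMap Q g t) (brk A B) C : smoothAlg G) : Pt G → ℝ) p
        - (((qCalc Q).met t (hMap Q g t) (brk A C) B : smoothAlg G) : Pt G → ℝ) p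
        - (((qCalc Q).met t (hMap Q g t) (brk B C) A : smoothAlg G) : Pt G → ℝ) p) := rfl
  have e1 : (((qCalc Q).met t (hMap Q g t) (brk A B) C : smoothAlg G) : Pt G → ℝ) p =
      g.val p (brk A B) C := congrFun (met_coe Q g t ht (brk A B) C) p
  have e2 : (((qCalc Q).met t (hMap Q g t) (brk A C) B : smoothAlg G) : Pt G → ℝ) p =
      g.val p (brk A C) B := congrFun (met_coe Q g t ht (brk A C) B) p
  have e3 : (((qCalc Q).met t (hMap Q g t) (brk B C) A : smoothAlg G) : Pt G → ℝ) p =
      g.val p (brk B C) A := congrFun (met_coe Q g t ht (brk B C) A) p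
  rw [h1, e1, e2, e3]
  simp only [met_coe Q g t ht, Metric.koszul]
  ring

/-- unit vector in the direction of `Z` -/
def unit (Z : LQ Q) : LQ Q := ‖Z‖⁻¹ • Z

theorem norm_smul_unit (Z : LQ Q) : ‖Z‖ • unit Q Z = Z := by
  unfold unit
  by_cases h : Z = 0
  · simp [h]
  · rw [smul_smul, mul_inv_cancel₀ (norm_ne_zero_iff.2 h), one_smul]

theorem ip_unit (Z : LQ Q) : Q.val (unit Q Z) (unit Q Z) ≤ 1 := by
  show inner ℝ (unit Q Z) (unit Q Z) ≤ (1 : ℝ)
  unfold unit
  rw [real_inner_smul_left, real_inner_smul_right, real_inner_self_eq_norm_sq]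
  by_cases h : Z = 0
  · simp [h]
  · have := norm_ne_zero_iff.2 h
    field_simp
    exact le_rfl

theorem Dl_coe (L : List (LQ Q)) (f : smoothAlg G) :
    (((qCalc Q).Dl L f : smoothAlg G) : Pt G → ℝ) =
      (show List (lieAlg G) from L).foldr lie (f : Pt G → ℝ) := by
  induction L with
  | nil => rfl
  | cons Z L ih =>
    show lie Z (((qCalc Q).Dl L f : smoothAlg G) : Pt G → ℝ) = _
    rw [ih]
    rfl

theorem Dl_smul (L : List (LQ Q)) (c : ℝ) (f : smoothAlg G) :
    (qCalc Q).Dl L (c • f) = c • (qCalc Q).Dl L f := by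
  induction L with
  | nil => rfl
  | cons Z L ih =>
    show (qCalc Q).D Z ((qCalc Q).Dl L (c • f)) = c • (qCalc Q).D Z ((qCalc Q).Dl L f)
    rw [ih]
    exact ((qCalc Q).D Z).map_smul c _

theorem Dl_unit (L : List (LQ Q)) (f : smoothAlg G) :
    (qCalc Q).Dl L f = (L.map norm).prod • (qCalc Q).Dl (L.map (unit Q)) f := by
  induction L with
  | nil => simp [Calc.Dl]
  | cons Z L ih =>
    show (qCalc Q).D Z ((qCalc Q).Dl L f) =
      (‖Z‖ * (L.map norm).prod) • (qCalc Q).D (unit Q Z) ((qCalc Q).Dl (L.map (unit Q)) f)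
    conv_lhs => rw [ih, ← norm_smul_unit Q Z]
    have e1 := ((qCalc Q).D (‖Z‖ • unit Q Z)).map_smul (L.map norm).prod
      ((qCalc Q).Dl (L.map (unit Q)) f)
    have e2 := LinearMap.congr_fun ((qCalc Q).D.map_smul ‖Z‖ (unit Q Z))
      ((qCalc Q).Dl (L.map (unit Q)) f)
    refine e1.trans ?_
    refine (congrArg (fun z => (L.map norm).prod • z) e2).trans ?_
    rw [LinearMap.smul_apply, smul_smul, mul_comm]

theorem close_bound (g : Metric G) (t : ℝ) (ht : 0 < t) (hc : CloseTo g Q t)
    (L : List (LQ Q)) (hL : L.length ≤ 4) (A B : LQ Q) (p : Pt G) :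
    |(qCalc Q).ev p ((qCalc Q).Dl L (hMap Q g t A B))| ≤ (L.map norm).prod * ‖A‖ * ‖B‖ := by
  have h1 : hMap Q g t A B = (‖A‖ * ‖B‖) • hMap Q g t (unit Q A) (unit Q B) := by
    conv_lhs => rw [← norm_smul_unit Q A, ← norm_smul_unit Q B]
    rw [LinearMap.map_smul₂, map_smul, smul_smul]
  have h0 : (qCalc Q).ev p ((qCalc Q).Dl L (hMap Q g t A B)) = (‖A‖ * ‖B‖) *
      ((L.map norm).prod * (qCalc Q).ev p ((qCalc Q).Dl (L.map (unit Q))
        (hMap Q g t (unit Q A) (unit Q B)))) := by
    rw [h1, Dl_smul, Dl_unit]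
    rfl
  rw [h0]
  set f0 : smoothAlg G := ⟨fun p => g.val p (unit Q A) (unit Q B) - Q.val (unit Q A) (unit Q B),
        Subalgebra.sub_mem (smoothAlg G) (g.smooth _ _) (smooth_const _)⟩ with hf0
  have h2 : hMap Q g t (unit Q A) (unit Q B) = t⁻¹ • f0 := rfl
  have h3 : |(qCalc Q).ev p ((qCalc Q).Dl (L.map (unit Q)) (hMap Q g t (unit Q A) (unit Q B)))|
      ≤ 1 := by
    have h4 := hc (L.map (unit Q)) (by
        show (List.map (unit Q) L).length ≤ 4
        rw [List.length_map]
        exact hL)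
      (by
        intro Z hZ
        obtain ⟨Z', _, rfl⟩ := List.mem_map.1 hZ
        exact ip_unit Q Z') (unit Q A) (unit Q B) (ip_unit Q A) (ip_unit Q B) p
    have h5 : (qCalc Q).ev p ((qCalc Q).Dl (L.map (unit Q)) f0) =
        ((show List (lieAlg G) from L.map (unit Q)).foldr lie
          (fun q => g.val q (unit Q A) (unit Q B) - Q.val (unit Q A) (unit Q B))) p := by
      show (((qCalc Q).Dl (L.map (unit Q)) _ : smoothAlg G) : Pt G → ℝ) p = _
      rw [Dl_coe]
      rfl
    have h7 : (qCalc Q).ev p ((qCalc Q).Dl (L.map (unit Q)) (hMap Q g t (unit Q A) (unit Q B))) =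
        t⁻¹ * (qCalc Q).ev p ((qCalc Q).Dl (L.map (unit Q)) f0) := by
      rw [h2, Dl_smul]
      rfl
    rw [h7, h5, abs_mul, abs_of_pos (inv_pos.2 ht), inv_mul_le_iff₀ ht, mul_one]
    exact h4
  have h6 : 0 ≤ (L.map norm).prod := by
    apply List.prod_nonneg
    intro x hx
    obtain ⟨Z, _, rfl⟩ := List.mem_map.1 hx
    exact norm_nonneg _
  generalize (qCalc Q).ev p ((qCalc Q).Dl (L.map (unit Q)) (hMap Q g t (unit Q A) (unit Q B))) = x
    at *
  rw [abs_mul, abs_mul (L.map norm).prod, abs_of_nonneg h6,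
    abs_of_nonneg (by positivity : 0 ≤ ‖A‖ * ‖B‖)]
  calc ‖A‖ * ‖B‖ * ((L.map norm).prod * |x|) ≤ ‖A‖ * ‖B‖ * ((L.map norm).prod * 1) := by gcongr
    _ = _ := by ring

/-- Second order rigidity of the bi-invariant metric of a compact matrix group for which there is
no sequence of metrics as in `Pert`. -/
theorem rigid_of_contra (hc : ∀ _ : Pert (qCalc Q), False) : Rigid Q := by
  by_contra hneg
  unfold Rigid at hneg
  push Not at hneg
  obtain ⟨ε, hε, hneg⟩ := hneg
  have hj : ∀ j : ℕ, ∃ (g : Metric G) (t : ℝ), 0 < t ∧ t ≤ 1 / ((j : ℝ) + 1) ∧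
      CloseTo g Q t ∧ ∀ (p : Pt G) (A B : lieAlg G), LinearIndependent ℝ ![A, B] →
        ε * t ^ 2 < g.sec A B p := by
    intro j
    obtain ⟨g, t, h1, h2, h3, h4⟩ := hneg (1 / ((j : ℝ) + 1)) (by positivity)
    exact ⟨g, t, h1, h2, h3, h4⟩
  choose g t h1 h2 h3 h4 using hj
  have htl : Tendsto t atTop (𝓝 0) :=
    squeeze_zero (fun j => (h1 j).le) h2 tendsto_one_div_add_atTop_nhds_zero_nat
  let S : Pert (qCalc Q) :=
    { t := t
      t_pos := h1
      t_lim := htl
      h := fun j => hMap Q (g j) (t j)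
      symm := by
        intro j A B
        apply Subtype.ext; funext p
        show (t j)⁻¹ * ((g j).val p A B - Q.val A B) = (t j)⁻¹ * ((g j).val p B A - Q.val B A)
        rw [(g j).symm p A B, Q.symm A B]
      bound := fun j L hL A B p => close_bound Q (g j) (t j) (h1 j) (h3 j) L hL A B p
      ε := ε
      ε_pos := hε
      pos := by
        intro j p A B hi VAA VAB VBA VBB a1 a2 a3 a4
        have hi' : LinearIndependent ℝ ![(show lieAlg G from A), (show lieAlg G from B)] := hi
        have hne := (h1 j).ne'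
        have hm : ∀ (A B : LQ Q) (p : Pt G), (qCalc Q).ev p
            ((qCalc Q).met (t j) (hMap Q (g j) (t j)) A B) = (g j).val p A B :=
          fun A B p => congrFun (met_coe Q (g j) (t j) hne A B) p
        have he : ∀ (A B C : LQ Q) (p : Pt G), (qCalc Q).ev p
            ((qCalc Q).eta ((qCalc Q).met (t j) (hMap Q (g j) (t j))) A B C) =
            (g j).koszul A B C p :=
          fun A B C p => congrFun (eta_coe Q (g j) (t j) hne A B C) p
        have hD : ∀ (Z A B C : LQ Q) (p : Pt G), (qCalc Q).ev p ((qCalc Q).D Z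
            ((qCalc Q).eta ((qCalc Q).met (t j) (hMap Q (g j) (t j))) A B C)) =
            lie Z ((g j).koszul A B C) p := by
          intro Z A B C p
          show lie Z (((qCalc Q).eta ((qCalc Q).met (t j) (hMap Q (g j) (t j))) A B C :
            smoothAlg G) : Pt G → ℝ) p = _
          rw [eta_coe Q (g j) (t j) hne A B C]
        have b1 := (g j).eq_nabla A A VAA p fun C =>
          (hm VAA C p).symm.trans ((a1 C).trans (he A A C p))
        have b2 := (g j).eq_nabla A B VAB p fun C =>
          (hm VAB C p).symm.trans ((a2 C).trans (he A B C p))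
        have b3 := (g j).eq_nabla B A VBA p fun C =>
          (hm VBA C p).symm.trans ((a3 C).trans (he B A C p))
        have b4 := (g j).eq_nabla B B VBB p fun C =>
          (hm VBB C p).symm.trans ((a4 C).trans (he B B C p))
        have c1 : (qCalc Q).num ((qCalc Q).met (t j) (hMap Q (g j) (t j))) p A B VAA VAB VBA VBB =
            (g j).curv A B p := by
          have := he (brk A B) B A p
          have e : (qCalc Q).br A B = brk A B := rfl
          simp only [Calc.num, hD, hm, Metric.curv, b1, b2, b3, b4]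
          rw [e, this]
          ring
        have c2 : (qCalc Q).gram ((qCalc Q).met (t j) (hMap Q (g j) (t j))) p A B =
            (g j).val p A A * (g j).val p B B - (g j).val p A B ^ 2 := by
          simp only [Calc.gram, hm]
        have c3 := (g j).gram_pos p A B hi'
        have c4 : ε * t j ^ 2 < (g j).curv A B p /
            ((g j).val p A A * (g j).val p B B - (g j).val p A B ^ 2) := h4 j p A B hi'
        rw [lt_div_iff₀ c3] at c4
        rw [c1, c2]
        exact c4 }
  exact hc S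

end Pool.Agent.TH109.CG4
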