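import Pool.Agent.TH109.CG3.Main3

/-!
Invariant inner products on the Lie algebra of a compact matrix group, and rigidity of the
corresponding metrics.
-/

open scoped ContDiff Matrix.Norms.Frobenius
open Matrix Pool.Agent.H842R4 Pool.Agent.TH109.CG

noncomputable section

namespace Pool.Agent.TH109.CG4

variable {N : ℕ}

/-- An invariant inner product on the Lie algebra of `G`. -/
structure InvProduct (G : CGroup N) where
  val : lieAlg G →ₗ[ℝ] lieAlg G →ₗ[ℝ] ℝ
  symm : ∀ A B, val A B = val B A
  pos : ∀ A, A ≠ 0 → 0 < val A A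
  inv : ∀ A B C, val (brk A B) C = val A (brk B C)

/-- `‖g - Q‖_{C⁴} ≤ t`: the components of `g - Q` in the left-invariant frame and all their
derivatives of order at most four along left-invariant fields of `Q`-length at most one are bounded
by `t`. -/
def CloseTo {G : CGroup N} (g : Metric G) (Q : InvProduct G) (t : ℝ) : Prop :=
  ∀ L : List (lieAlg G), L.length ≤ 4 → (∀ Z ∈ L, Q.val Z Z ≤ 1) →
    ∀ A B : lieAlg G, Q.val A A ≤ 1 → Q.val B B ≤ 1 →
      ∀ p, |(L.foldr lie (fun q => g.val q A B - Q.val A B)) p| ≤ t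

/-- Second order rigidity of the bi-invariant metric of `G` defined by `Q`. -/
def Rigid {G : CGroup N} (Q : InvProduct G) : Prop :=
  ∀ ε : ℝ, 0 < ε → ∃ t₀ : ℝ, 0 < t₀ ∧ ∀ (g : Metric G) (t : ℝ), 0 < t → t ≤ t₀ →
    CloseTo g Q t →
      ∃ (p : Pt G) (A B : lieAlg G), LinearIndependent ℝ ![A, B] ∧ g.sec A B p ≤ ε * t ^ 2

variable {G : CGroup N}

/-- the Lie algebra with the inner product `Q` -/
def LQ (_Q : InvProduct G) : Type := lieAlg G

variable (Q : InvProduct G)

instance : AddCommGroup (LQ Q) := inferInstanceAs (AddCommGroup (lieAlg G))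

instance : Module ℝ (LQ Q) := inferInstanceAs (Module ℝ (lieAlg G))

/-- inner product core -/
def core : InnerProductSpace.Core ℝ (LQ Q) where
  inner A B := Q.val A B
  conj_inner_symm A B := by
    show (starRingEnd ℝ) (Q.val B A) = Q.val A B
    rw [Q.symm A B]
    rfl
  re_inner_nonneg A := by
    show 0 ≤ (Q.val A A : ℝ)
    by_cases h : (show lieAlg G from A) = 0
    · have : Q.val A A = Q.val (0 : lieAlg G) (0 : lieAlg G) := by
        show Q.val (show lieAlg G from A) (show lieAlg G from A) = _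
        rw [h]
      rw [this, map_zero]
    · exact (Q.pos _ h).le
  add_left A B C := LinearMap.map_add₂ Q.val (show lieAlg G from A) (show lieAlg G from B)
    (show lieAlg G from C)
  smul_left A B c := LinearMap.map_smul₂ Q.val c (show lieAlg G from A) (show lieAlg G from B)
  definite A h := by
    by_contra hne
    exact (Q.pos (show lieAlg G from A) hne).ne' h

instance nacg : NormedAddCommGroup (LQ Q) := (core Q).toNormedAddCommGroup

instance ips : InnerProductSpace ℝ (LQ Q) := InnerProductSpace.ofCore (core Q).toCore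

instance : FiniteDimensional ℝ (LQ Q) := inferInstanceAs (FiniteDimensional ℝ (lieAlg G))

theorem inner_def (A B : LQ Q) : inner ℝ A B = Q.val A B := rfl

/-- the identity map -/
def idQ : lieAlg G →ₗ[ℝ] LQ Q := LinearMap.id (R := ℝ) (M := lieAlg G)

theorem der_transfer {f : ℝ → lieAlg G} {f' : lieAlg G} {s : ℝ} (h : HasDerivAt f f' s) :
    HasDerivAt (fun u => (show LQ Q from f u)) (show LQ Q from f') s := by
  have h1 := ((idQ Q).toContinuousLinearMap.hasFDerivAt (x := f s)).comp_hasDerivAt s h
  exact h1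

theorem ad_innerQ (Z : lieAlg G) (s : ℝ) (A B : lieAlg G) :
    Q.val (ad Z s A) (ad Z s B) = Q.val A B := by
  have h1 : ∀ s, HasDerivAt (fun u => Q.val (ad Z u A) (ad Z u B)) 0 s := by
    intro s
    have h2 := (der_transfer Q (ad_der Z A s)).inner ℝ (der_transfer Q (ad_der Z B s))
    have h3 : Q.val (ad Z s A) (brk Z (ad Z s B)) + Q.val (brk Z (ad Z s A)) (ad Z s B) = 0 := by
      have e1 : brk Z (ad Z s A) = - brk (ad Z s A) Z := (gCalc G).br_anti Z (ad Z s A)
      rw [e1, map_neg, LinearMap.neg_apply, Q.inv, add_neg_cancel]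
    have h4 : HasDerivAt (fun u => Q.val (ad Z u A) (ad Z u B))
        (Q.val (ad Z s A) (brk Z (ad Z s B)) + Q.val (brk Z (ad Z s A)) (ad Z s B)) s := h2
    rwa [h3] at h4
  have h2 := is_const_of_deriv_eq_zero (fun s => (h1 s).differentiableAt) (fun s => (h1 s).deriv)
    s 0
  rw [ad_zero, ad_zero] at h2
  exact h2

/-- the calculus of left-invariant fields with the inner product `Q` -/
def qCalc : Calc (Pt G) (LQ Q) where
  br := brkL G
  br_self := (gCalc G).br_self
  jac := (gCalc G).jac
  ad_inv := Q.inv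
  𝒜 := smoothAlg G
  D := lieL G
  D_mul := (gCalc G).D_mul
  D_br := (gCalc G).D_br
  fl A s p := move p A s
  fl_zero := (gCalc G).fl_zero
  fl_add := (gCalc G).fl_add
  fl_comm := (gCalc G).fl_comm
  fl_comb := (gCalc G).fl_comb
  der := (gCalc G).der
  cont₂ := (gCalc G).cont₂
  bdd := (gCalc G).bdd
  int_mem := (gCalc G).int_mem
  Ad := ad
  Ad_zero := ad_zero
  Ad_der Z A s := der_transfer Q (ad_der Z A s)
  Ad_fix := (gCalc G).Ad_fix
  Ad_br := (gCalc G).Ad_br
  Ad_inner Z s A B := ad_innerQ Q Z s A B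
  Ad_cl := (gCalc G).Ad_cl

/-- the invariant mean -/
def qMean : Pool.Agent.TH109.CG2.Mean (qCalc Q) where
  E := (Pool.Agent.TH109.CG2.haarMean G).E
  mono := (Pool.Agent.TH109.CG2.haarMean G).mono
  const := (Pool.Agent.TH109.CG2.haarMean G).const
  inv := (Pool.Agent.TH109.CG2.haarMean G).inv

end Pool.Agent.TH109.CG4
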