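import Pool.Agent.TH109.CG4.FinalQ

/-!
Second order rigidity of every bi-invariant metric in rank at least two.
-/

open scoped ContDiff Matrix.Norms.Frobenius Topology
open Matrix Filter Module Pool.Agent.H842R4 Pool.Agent.H842R4.Calc
open Pool.Agent.TH109.CG Pool.Agent.TH109.CG2 Pool.Agent.TH109.CG3

noncomputable section

namespace Pool.Agent.TH109.CG4

variable {N : ℕ} {G : CGroup N}

/-- integrality of weights, for any inner product -/
theorem int_of_closedQ (X A B : lieAlg G)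
    (hX : NormedSpace.exp ((2 * Real.pi) • (X : Mat N)) = 1) (μ : ℝ) (hA : A ≠ 0)
    (h1 : brk X A = μ • B) (h2 : brk X B = -(μ • A)) : ∃ m : ℤ, μ = m := by
  by_cases hμ : μ = 0
  · exact ⟨0, by rw [hμ]; norm_num⟩
  have hn : ‖A‖ ≠ 0 := norm_ne_zero_iff.2 hA
  have h1' : (gCalc G).br X A = μ • B := h1
  have h2' : (gCalc G).br X B = -(μ • A) := h2
  have hAB : ip A B = 0 := by
    have h3 : ip (brk X A) A = 0 := br_self_inner (gCalc G) X A
    rw [h1, ip_smul_left] at h3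
    rw [ip_comm]
    exact (mul_eq_zero.1 h3).resolve_left hμ
  have e1 : (gCalc G).br X (‖A‖⁻¹ • A) = μ • (‖A‖⁻¹ • B) := by
    rw [map_smul, h1', smul_comm]
  have e2 : (gCalc G).br X (‖A‖⁻¹ • B) = -(μ • (‖A‖⁻¹ • A)) := by
    rw [map_smul, h2', smul_neg, smul_comm]
  refine int_of_closed X (‖A‖⁻¹ • A) (‖A‖⁻¹ • B) hX μ ?_ ?_ e1 e2
  · rw [norm_smul, norm_inv, norm_norm, inv_mul_cancel₀ hn]
  · show ip (‖A‖⁻¹ • A) (‖A‖⁻¹ • B) = 0
    rw [ip_smul_left, ip_smul_right, hAB, mul_zero, mul_zero]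

theorem sq_memQ (Q : InvProduct G) (X Y A : LQ Q) (hX : (qCalc Q).br X A = 0)
    (hY : (qCalc Q).br Y A = 0) :
    CG.sq A ∈ Submodule.span ℝ (CG.sq '' {C : LQ Q | (qCalc Q).Cl C ∧ (qCalc Q).br X C = 0 ∧
      (qCalc Q).br Y C = 0}) := by
  obtain ⟨X', rfl⟩ : ∃ X' : lieAlg G, (show LQ Q from X') = X := ⟨X, rfl⟩
  obtain ⟨Y', rfl⟩ : ∃ Y' : lieAlg G, (show LQ Q from Y') = Y := ⟨Y, rfl⟩
  obtain ⟨A', rfl⟩ : ∃ A' : lieAlg G, (show LQ Q from A') = A := ⟨A, rfl⟩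
  have hA : (A' : Mat N) ∈ lieAlg (cen G X' Y') :=
    mem_cen_lie.2 ⟨A'.2, (brk_eq_zero_iff X' A').1 hX, (brk_eq_zero_iff Y' A').1 hY⟩
  obtain ⟨r, C, b, h1, h2, h3, h4⟩ := exists_closed _ hA
  have h5 := fun j => mem_cen_lie.1 (h2 j)
  set C' : Fin r → LQ Q := fun j => (show LQ Q from (⟨C j, (h5 j).1⟩ : lieAlg G)) with hC'
  have h6 : (show LQ Q from A') = ∑ j, b j • C' j := by
    have h7 : A' = ∑ j, b j • (⟨C j, (h5 j).1⟩ : lieAlg G) := by
      apply Subtype.ext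
      rw [h1]
      push_cast
      rfl
    exact h7
  have hcl : ∀ D : lieAlg G, NormedSpace.exp ((2 * Real.pi) • (D : Mat N)) = 1 →
      (D : Mat N) * X' = X' * D → (D : Mat N) * Y' = Y' * D →
      (show LQ Q from D) ∈ {C : LQ Q | (qCalc Q).Cl C ∧ (qCalc Q).br X' C = 0 ∧
        (qCalc Q).br Y' C = 0} :=
    fun D hD hDX hDY => ⟨fun p => (move_fix_iff D (2 * Real.pi) p).2 hD,
      (brk_eq_zero_iff X' D).2 hDX, (brk_eq_zero_iff Y' D).2 hDY⟩
  rw [h6]
  refine sq_sum_mem _ C' b (fun j => hcl _ (h3 j) (h5 j).2.1 (h5 j).2.2) fun j k => ?_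
  refine hcl ⟨C j + C k, (lieAlg G).add_mem (h5 j).1 (h5 k).1⟩ (h4 j k) ?_ ?_
  · show (C j + C k) * (X' : Mat N) = X' * (C j + C k)
    rw [add_mul, mul_add, (h5 j).2.1, (h5 k).2.1]
  · show (C j + C k) * (Y' : Mat N) = Y' * (C j + C k)
    rw [add_mul, mul_add, (h5 j).2.2, (h5 k).2.2]

/-- Rigidity of every bi-invariant metric, for tori with good weights. -/
theorem main4 (Q : InvProduct G) (X Y : lieAlg G) (ind : LinearIndependent ℝ ![X, Y])
    (hXY : brk X Y = 0) (hX : NormedSpace.exp ((2 * Real.pi) • (X : Mat N)) = 1)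
    (hY : NormedSpace.exp ((2 * Real.pi) • (Y : Mat N)) = 1) (hp : GoodWeights X Y) :
    Rigid Q := by
  refine rigid_of_contra Q fun S => ?_
  have hpair : Pair (qCalc Q) (show LQ Q from X) (show LQ Q from Y) :=
    ⟨fun p => (move_fix_iff X (2 * Real.pi) p).2 hX,
      fun p => (move_fix_iff Y (2 * Real.pi) p).2 hY, hXY, ind,
      fun m n A B hA hw => hp m n A B hA hw.1 hw.2.1 hw.2.2.1 hw.2.2.2⟩
  refine contra3 (qMean Q) S ?_ (fun X Y A h1 h2 => sq_memQ Q X Y A h1 h2) hpair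
  intro X A B μ cX hA hAB h1 h2
  have hX' : NormedSpace.exp ((2 * Real.pi) • ((show lieAlg G from X : lieAlg G) : Mat N)) = 1 :=
    (move_fix_iff (show lieAlg G from X) (2 * Real.pi) (1 : Pt G)).1 (cX 1)
  have hA0 : A ≠ 0 := by
    rintro rfl
    rw [norm_zero] at hA
    exact zero_ne_one hA
  exact int_of_closedQ (show lieAlg G from X) (show lieAlg G from A) (show lieAlg G from B) hX' μ
    hA0 h1 h2

/-- Rigidity of every bi-invariant metric in rank at least two. -/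
theorem rank2Q (Q : InvProduct G) (A0 B0 : lieAlg G) (ind : LinearIndependent ℝ ![A0, B0])
    (h0 : brk A0 B0 = 0) : Rigid Q := by
  obtain ⟨X, Y, h1, h2, h3, h4, h5⟩ := exists_good G A0 B0 ind h0
  exact main4 Q X Y h1 h2 h3 h4 h5

end Pool.Agent.TH109.CG4
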