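import Pool.Agent.TH109.CG4.Main4

/-!
A bi-invariant metric of rank at most one is not rigid: it has positive curvature.
-/

open scoped ContDiff Matrix.Norms.Frobenius Topology
open Matrix Filter Module Pool.Agent.H842R4 Pool.Agent.H842R4.Calc
open Pool.Agent.TH109.CG Pool.Agent.TH109.CG2 Pool.Agent.TH109.CG3

noncomputable section

namespace Pool.Agent.TH109.CG4

variable {N : ℕ} {G : CGroup N}

/-- the bi-invariant metric -/
def cMetric (Q : InvProduct G) : Metric G where
  val _ := Q.val
  symm _ := Q.symm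
  pos _ := Q.pos
  smooth A B := smooth_const (Q.val A B)

theorem lie_const (A : lieAlg G) (c : ℝ) (p : Pt G) : lie A (fun _ => c) p = 0 := by
  unfold lie
  exact deriv_const _ _

theorem foldr_zero (L : List (lieAlg G)) : L.foldr lie (fun _ : Pt G => (0 : ℝ)) = fun _ => 0 := by
  induction L with
  | nil => rfl
  | cons Z L ih =>
    show lie Z (L.foldr lie (fun _ : Pt G => (0 : ℝ))) = fun _ => 0
    rw [ih]
    funext p
    exact lie_const Z 0 p

theorem close_self (Q : InvProduct G) {t : ℝ} (ht : 0 < t) : CloseTo (cMetric Q) Q t := by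
  intro L _ _ A B _ _ p
  have h1 : (fun q : Pt G => (cMetric Q).val q A B - Q.val A B) = fun _ => 0 := by
    funext q
    exact sub_self _
  rw [h1, foldr_zero, abs_zero]
  exact ht.le

theorem brk_anti (A B : lieAlg G) : brk A B = - brk B A := (gCalc G).br_anti A B

theorem koszul_const (Q : InvProduct G) (A B C : lieAlg G) (p : Pt G) :
    (cMetric Q).koszul A B C p = Q.val (brk A B) C / 2 := by
  have h1 : (cMetric Q).koszul A B C p = (lie A (fun _ => Q.val B C) p + lie B (fun _ => Q.val A C) p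
    - lie C (fun _ => Q.val A B) p + Q.val (brk A B) C - Q.val (brk A C) B
    - Q.val (brk B C) A) / 2 := rfl
  have h2 : Q.val (brk A C) B = - Q.val (brk A B) C := by
    rw [brk_anti A C, map_neg, LinearMap.neg_apply, Q.inv, Q.symm C]
  have h3 : Q.val (brk B C) A = Q.val (brk A B) C := by
    rw [Q.symm, ← Q.inv]
  rw [h1, lie_const, lie_const, lie_const, h2, h3]
  ring

theorem nabla_const (Q : InvProduct G) (A B : lieAlg G) (p : Pt G) :
    (cMetric Q).nabla A B p = (1 / 2 : ℝ) • brk A B := by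
  refine (cMetric Q).eq_nabla A B _ p fun C => ?_
  rw [koszul_const]
  show Q.val ((1 / 2 : ℝ) • brk A B) C = _
  rw [map_smul, LinearMap.smul_apply, smul_eq_mul]
  ring

theorem brk_self' (A : lieAlg G) : brk A A = 0 := (gCalc G).br_self A

theorem curv_const (Q : InvProduct G) (A B : lieAlg G) (p : Pt G) :
    (cMetric Q).curv A B p = Q.val (brk A B) (brk A B) / 4 := by
  have k1 : (cMetric Q).koszul B B A = fun _ => Q.val (brk B B) A / 2 :=
    funext fun q => koszul_const Q B B A q
  have k2 : (cMetric Q).koszul A B A = fun _ => Q.val (brk A B) A / 2 :=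
    funext fun q => koszul_const Q A B A q
  have h1 : (cMetric Q).curv A B p = lie A ((cMetric Q).koszul B B A) p
    - Q.val ((cMetric Q).nabla B B p) ((cMetric Q).nabla A A p)
    - lie B ((cMetric Q).koszul A B A) p + Q.val ((cMetric Q).nabla A B p) ((cMetric Q).nabla B A p)
    - (cMetric Q).koszul (brk A B) B A p := rfl
  have h2 : Q.val (brk (brk A B) B) A = - Q.val (brk A B) (brk A B) := by
    rw [Q.inv, brk_anti B A, map_neg]
  rw [h1, k1, k2, lie_const, lie_const, nabla_const, nabla_const, nabla_const, nabla_const,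
    koszul_const, h2, brk_self', brk_self', brk_anti B A]
  simp only [smul_zero, map_zero, map_smul, LinearMap.smul_apply, smul_eq_mul, smul_neg, map_neg]
  ring

theorem cont_bil {E : Type} [NormedAddCommGroup E] [InnerProductSpace ℝ E]
    [FiniteDimensional ℝ E] (b : E →ₗ[ℝ] E →ₗ[ℝ] E) :
    Continuous fun x : E × E => ‖b x.1 x.2‖ ^ 2 := by
  have hL : ∀ x y, b.toContinuousBilinearMap x y = b x y := fun x y =>
    LinearMap.toContinuousBilinearMap_apply b x y
  have h1 : Continuous fun x : E × E => b.toContinuousBilinearMap x.1 x.2 :=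
    ((b.toContinuousBilinearMap).continuous.comp continuous_fst).clm_apply continuous_snd
  simp only [hL] at h1
  exact h1.norm.pow 2

theorem bound_bil {E : Type} [NormedAddCommGroup E] [InnerProductSpace ℝ E]
    [FiniteDimensional ℝ E] (b : E →ₗ[ℝ] E →ₗ[ℝ] E)
    (h : ∀ A B : E, LinearIndependent ℝ ![A, B] → b A B ≠ 0) :
    ∃ c : ℝ, 0 < c ∧ ∀ A B : E, ‖A‖ = 1 → ‖B‖ = 1 → inner ℝ A B = (0 : ℝ) → c ≤ ‖b A B‖ ^ 2 := by
  set S : Set (E × E) := {x | ‖x.1‖ = 1 ∧ ‖x.2‖ = 1 ∧ inner ℝ x.1 x.2 = (0 : ℝ)} with hS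
  by_cases hne : S.Nonempty
  · have hcl : IsClosed S := by
      refine (isClosed_eq continuous_fst.norm continuous_const).inter
        ((isClosed_eq continuous_snd.norm continuous_const).inter
        (isClosed_eq (continuous_fst.inner continuous_snd) continuous_const))
    have hbd : Bornology.IsBounded S := by
      refine (Metric.isBounded_closedBall (x := (0 : E × E)) (r := 1)).subset fun x hx => ?_
      rw [mem_closedBall_zero_iff, Prod.norm_def]
      exact max_le hx.1.le hx.2.1.le
    have : ProperSpace (E × E) := FiniteDimensional.proper ℝ _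
    have hcp : IsCompact S := Metric.isCompact_of_isClosed_isBounded hcl hbd
    obtain ⟨x, hx, hmin⟩ := hcp.exists_isMinOn hne (cont_bil b).continuousOn
    refine ⟨‖b x.1 x.2‖ ^ 2, ?_, fun A B h1 h2 h3 => ?_⟩
    · have hne0 : b x.1 x.2 ≠ 0 := by
        apply h
        have h5 : Orthonormal ℝ ![x.1, x.2] := by
          rw [orthonormal_iff_ite]
          intro i j
          have e1 : inner ℝ x.1 x.1 = (1 : ℝ) := by
            rw [real_inner_self_eq_norm_sq, hx.1]; norm_num
          have e2 : inner ℝ x.2 x.2 = (1 : ℝ) := by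
            rw [real_inner_self_eq_norm_sq, hx.2.1]; norm_num
          have e3 : inner ℝ x.2 x.1 = (0 : ℝ) := by rw [real_inner_comm]; exact hx.2.2
          fin_cases i <;> fin_cases j
          · exact e1
          · exact hx.2.2
          · exact e3
          · exact e2
        exact h5.linearIndependent
      positivity
    · have hAB : (A, B) ∈ S := ⟨h1, h2, h3⟩
      exact isMinOn_iff.1 hmin (A, B) hAB
  · exact ⟨1, one_pos, fun A B h1 h2 h3 => absurd ⟨(A, B), h1, h2, h3⟩ hne⟩

/-- positive curvature without commuting elements -/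
theorem exists_bound (Q : InvProduct G)
    (h : ¬ ∃ A B : lieAlg G, LinearIndependent ℝ ![A, B] ∧ brk A B = 0) :
    ∃ c : ℝ, 0 < c ∧ ∀ A B : LQ Q, ‖A‖ = 1 → ‖B‖ = 1 → inner ℝ A B = (0 : ℝ) →
      c ≤ ‖(qCalc Q).br A B‖ ^ 2 :=
  bound_bil (qCalc Q).br fun A B hi h0 => h ⟨A, B, hi, h0⟩

theorem sec_bound (Q : InvProduct G) {c : ℝ}
    (h : ∀ A B : LQ Q, ‖A‖ = 1 → ‖B‖ = 1 → inner ℝ A B = (0 : ℝ) →
      c ≤ ‖(qCalc Q).br A B‖ ^ 2) (A B : lieAlg G) (hi : LinearIndependent ℝ ![A, B]) (p : Pt G) :
    c / 4 ≤ (cMetric Q).sec A B p := by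
  have hg := (cMetric Q).gram_pos p A B hi
  have hs : (cMetric Q).sec A B p = (cMetric Q).curv A B p /
    ((cMetric Q).val p A A * (cMetric Q).val p B B - (cMetric Q).val p A B ^ 2) := rfl
  rw [hs, curv_const, le_div_iff₀ hg]
  -- in the Euclidean space `LQ Q`
  obtain ⟨a, ha⟩ : ∃ a : LQ Q, a = A := ⟨A, rfl⟩
  obtain ⟨b, hb⟩ : ∃ b : LQ Q, b = B := ⟨B, rfl⟩
  have key : ∀ a b : LQ Q, 0 < inner ℝ a a * inner ℝ b b - (inner ℝ a b : ℝ) ^ 2 →
      c / 4 * (inner ℝ a a * inner ℝ b b - (inner ℝ a b : ℝ) ^ 2) ≤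
        inner ℝ ((qCalc Q).br a b) ((qCalc Q).br a b) / 4 := by
    intro a b hpos
    have haa : (0 : ℝ) < inner ℝ a a := by
      by_contra hcon
      push Not at hcon
      have h1 : (inner ℝ a a : ℝ) = 0 := le_antisymm hcon real_inner_self_nonneg
      rw [h1] at hpos
      nlinarith [sq_nonneg (inner ℝ a b : ℝ)]
    set d : LQ Q := b - (inner ℝ a b / inner ℝ a a) • a with hd
    have hdd : (inner ℝ d d : ℝ) * inner ℝ a a =
        inner ℝ a a * inner ℝ b b - (inner ℝ a b : ℝ) ^ 2 := by
      rw [hd, inner_sub_left, inner_sub_right, inner_sub_right, real_inner_smul_left,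
        real_inner_smul_left, real_inner_smul_right, real_inner_smul_right, real_inner_comm b a]
      field_simp
      ring
    have had : (inner ℝ a d : ℝ) = 0 := by
      rw [hd, inner_sub_right, real_inner_smul_right]
      field_simp
      ring
    have hdp : (0 : ℝ) < inner ℝ d d := by
      by_contra hcon
      push Not at hcon
      nlinarith
    have hbr : (qCalc Q).br a b = (qCalc Q).br a d := by
      rw [hd, map_sub, map_smul, (qCalc Q).br_self, smul_zero, sub_zero]
    have na : ‖a‖ ≠ 0 := by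
      intro h0
      rw [real_inner_self_eq_norm_sq, h0] at haa
      norm_num at haa
    have nd : ‖d‖ ≠ 0 := by
      intro h0
      rw [real_inner_self_eq_norm_sq, h0] at hdp
      norm_num at hdp
    have h5 := h (‖a‖⁻¹ • a) (‖d‖⁻¹ • d)
      (by rw [norm_smul, norm_inv, norm_norm, inv_mul_cancel₀ na])
      (by rw [norm_smul, norm_inv, norm_norm, inv_mul_cancel₀ nd])
      (by rw [real_inner_smul_left, real_inner_smul_right, had, mul_zero, mul_zero])
    have h6 : ‖(qCalc Q).br (‖a‖⁻¹ • a) (‖d‖⁻¹ • d)‖ ^ 2 * (‖a‖ ^ 2 * ‖d‖ ^ 2) =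
        ‖(qCalc Q).br a d‖ ^ 2 := by
      rw [map_smul, LinearMap.map_smul₂, norm_smul, norm_smul, norm_inv, norm_inv, norm_norm,
        norm_norm]
      field_simp
    rw [← hdd, hbr, real_inner_self_eq_norm_sq, real_inner_self_eq_norm_sq,
      real_inner_self_eq_norm_sq, ← h6]
    have h7 : 0 ≤ ‖a‖ ^ 2 * ‖d‖ ^ 2 := by positivity
    have h8 := mul_le_mul_of_nonneg_right h5 h7
    linarith
  exact key A B hg

/-- a bi-invariant metric without flat planes is not rigid -/
theorem not_rigid (Q : InvProduct G)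
    (h : ¬ ∃ A B : lieAlg G, LinearIndependent ℝ ![A, B] ∧ brk A B = 0) : ¬ Rigid Q := by
  obtain ⟨c, hc, hbound⟩ := exists_bound Q h
  intro hr
  obtain ⟨t₀, ht₀, H⟩ := hr 1 one_pos
  set t : ℝ := min t₀ (min 1 (c / 8)) with ht
  have htp : 0 < t := lt_min ht₀ (lt_min one_pos (by positivity))
  obtain ⟨p, A, B, hi, hsec⟩ := H (cMetric Q) t htp (min_le_left _ _) (close_self Q htp)
  have h1 := sec_bound Q hbound A B hi p
  have h2 : t ≤ 1 := (min_le_right _ _).trans (min_le_left _ _)
  have h3 : t ≤ c / 8 := (min_le_right _ _).trans (min_le_right _ _)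
  nlinarith

/-- **Theorem.** A bi-invariant metric of a compact matrix group is rigid to second order if and
only if the Lie algebra contains two commuting linearly independent elements. -/
theorem rigid_iff (Q : InvProduct G) :
    Rigid Q ↔ ∃ A B : lieAlg G, LinearIndependent ℝ ![A, B] ∧ brk A B = 0 := by
  constructor
  · intro h
    by_contra hcon
    exact not_rigid Q hcon h
  · rintro ⟨A, B, hi, h0⟩
    exact rank2Q Q A B hi h0

end Pool.Agent.TH109.CG4
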